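import Mathlib
import Pool.Agent.TH932.S2.G.Sig
import Pool.Agent.TH932.S2.G.Col

set_option autoImplicit false

/-!
# Large scaled total stopping times of the 3x+1 map and block complexity
-/

namespace Pool.Agent.Results.MP_bc8dca_nt.LargeTimesSuperlinear

open Filter Topology Pool.Agent.TH932.Words Pool.Agent.TH932.S2

/-- the `3x+1` map -/
def T (n : ℤ) : ℤ := if n % 2 = 0 then n / 2 else (3 * n + 1) / 2

/-- the total stopping time of `n` is `k` -/
def HasTime (n : ℤ) (k : ℕ) : Prop := T^[k] n = 1 ∧ ∀ j < k, T^[j] n ≠ 1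

/-- the number of different blocks of `N` consecutive parities among the first `h` terms of the
trajectory of `n` -/
noncomputable def blocksUpTo (n : ℤ) (h N : ℕ) : ℕ :=
  ((fun i : ℕ => fun j : Fin N => T^[i + j] n % 2) '' {i | i + N ≤ h}).ncard

/-- there is an interval `[m, R m]` below `log |n|`, with `m ≥ R`, such that for all integers `N`
in it more than `A N` different blocks of `N` consecutive parities occur among the first
`K log |n|` terms of the trajectory of `n` -/
def ManyBlocks (A R : ℝ) (K : ℕ) (n : ℤ) : Prop :=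
  ∃ m : ℕ, 1 ≤ m ∧ R ≤ m ∧ R * m ≤ Real.log |(n : ℝ)| ∧
    ∀ N : ℕ, m ≤ N → (N : ℝ) ≤ R * m → A * N < blocksUpTo n ⌊K * Real.log |(n : ℝ)|⌋₊ N

/-- the parities -/
lemma wc_le (n : ℤ) (H N : ℕ) : F.wc (F.wd G.Col.f G.Col.G n) H N ≤ blocksUpTo n H N := by
  have hGG : G.Col.G = T := rfl
  unfold F.wc blocksUpTo
  have e : (fun i : ℕ => fac (F.wd G.Col.f G.Col.G n) N i) =
      (fun v : Fin N → ℤ => fun j => ((v j : ℤ) : ZMod 2)) ∘
        (fun i : ℕ => fun j : Fin N => T^[i + j] n % 2) := by
    funext i j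
    simp only [Function.comp_apply, fac, F.wd, G.Col.f]
    rw [hGG]
    exact ((ZMod.intCast_eq_intCast_iff _ _ 2).2 (Int.mod_modEq _ _)).symm
  rw [e, Set.image_comp]
  apply Set.ncard_image_le
  apply Set.Finite.subset
    (Set.finite_univ.image (fun v : Fin N → Fin 2 => fun j => ((v j : ℕ) : ℤ)))
  rintro _ ⟨i, _, rfl⟩
  refine ⟨fun j => ⟨(T^[i + j] n % 2).toNat, ?_⟩, trivial, ?_⟩
  · have h1 := Int.emod_two_eq_zero_or_one (T^[i + j] n)
    rcases h1 with h | h <;> rw [h] <;> norm_num
  · funext j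
    have h1 := Int.emod_two_eq_zero_or_one (T^[i + j] n)
    simp only
    rcases h1 with h | h <;> rw [h] <;> norm_num

/-- **Result.** For all real numbers `A` and `R` there is `K` such that:

(1) if the first `K log |n|` terms of the trajectory of the integer `n` are larger than `K` in
absolute value, then there is an interval `[m, R m]` with `m ≥ R` and `R m ≤ log |n|` such that for
all integers `N` in this interval more than `A N` different blocks of `N` consecutive parities
occur among the first `K log |n|` terms;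

(2) this conclusion also holds if `n ≥ 2` reaches `1` and its total stopping time is larger than
`K log n`. -/
theorem result (A R : ℝ) : ∃ K : ℕ, 1 ≤ K ∧
    (∀ n : ℤ, (∀ i : ℕ, (i : ℝ) ≤ K * Real.log |(n : ℝ)| → (K : ℤ) < |T^[i] n|) →
      ManyBlocks A R K n) ∧
    (∀ (n : ℤ) (k : ℕ), 2 ≤ n → HasTime n k → K * Real.log n < k → ManyBlocks A R K n) := by
  have hGG : G.Col.G = T := rfl
  obtain ⟨K, hK1, h1, h2⟩ := G.desc_time G.Col.T G.Col.mp A R
  refine ⟨K, hK1, fun n hn => ?_, fun n k hn hk hbig => ?_⟩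
  · obtain ⟨m, a, b, c, d⟩ := h1 n hn
    exact ⟨m, a, b, c, fun N e f => (d N e f).trans_le (by exact_mod_cast wc_le n _ N)⟩
  · have hn0 : |(n : ℝ)| = n := abs_of_nonneg (by exact_mod_cast (by omega : (0 : ℤ) ≤ n))
    obtain ⟨m, a, b, c, d⟩ := h2 n k (by rw [abs_of_nonneg (by omega)]; exact hn) hk
      (by rw [hn0]; exact hbig)
    exact ⟨m, a, b, c, fun N e f => (d N e f).trans_le (by exact_mod_cast wc_le n _ N)⟩

end Pool.Agent.Results.MP_bc8dca_nt.LargeTimesSuperlinear
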